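import Mathlib

set_option autoImplicit false

namespace Pool.Agent.H.MP_ff42d4_co

open Filter Topology

abbrev XS : Type :=
  (Fin 8 → Fin 3 → ℝ) × (Fin 8 → Fin 3 → ℝ) × (Fin 8 → ℝ) × (Fin 8 → ℝ) × (Fin 8 → Fin 8 → ℝ)

abbrev TS : Type := (Fin 8 → Fin 8 → ℝ) × (Fin 8 → ℝ) × (Fin 8 → ℝ)

def g (x : XS) (y k : Fin 8) : ℝ :=
  ∑ c, (x.1 y c - x.2.1 k c) ^ 2 - (x.2.2.1 y + x.2.2.2.1 k) ^ 2

def dg (x v : XS) (y k : Fin 8) : ℝ :=
  2 * ∑ c, (x.1 y c - x.2.1 k c) * (v.1 y c - v.2.1 k c)
    - 2 * (x.2.2.1 y + x.2.2.2.1 k) * (v.2.2.1 y + v.2.2.2.1 k)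

def G (adj : Fin 8 → Fin 8 → Bool) (x : XS) : TS :=
  (fun y k => if adj y k then g x y k else x.2.2.2.2 y k, x.2.2.1, x.2.2.2.1)

def DG (adj : Fin 8 → Fin 8 → Bool) (x v : XS) : TS :=
  (fun y k => if adj y k then dg x v y k else v.2.2.2.2 y k, v.2.2.1, v.2.2.2.1)

lemma g_contDiff (y k : Fin 8) : ContDiff ℝ 1 (fun x : XS => g x y k) := by
  unfold g
  fun_prop

lemma G_contDiff (adj : Fin 8 → Fin 8 → Bool) : ContDiff ℝ 1 (G adj) := by
  unfold G
  refine ContDiff.prodMk ?_ (by fun_prop)
  refine contDiff_pi.2 fun y => contDiff_pi.2 fun k => ?_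
  by_cases h : adj y k = true
  · simp only [h, if_true]
    exact g_contDiff y k
  · simp only [h, Bool.false_eq_true, if_false]
    fun_prop

lemma quad (a b c : ℝ) : HasDerivAt (fun t : ℝ => a + b * t + c * t ^ 2) b 0 := by
  have h := (((hasDerivAt_id (0 : ℝ)).const_mul b).const_add a).add
    (((hasDerivAt_id (0 : ℝ)).pow 2).const_mul c)
  exact h.congr_deriv (by simp)

lemma fderiv_G (adj : Fin 8 → Fin 8 → Bool) (x v : XS) :
    fderiv ℝ (G adj) x v = DG adj x v := by
  have hl : HasDerivAt (fun t : ℝ => x + t • v) v 0 := by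
    simpa using ((hasDerivAt_id (0 : ℝ)).smul_const v).const_add x
  have hd : HasFDerivAt (G adj) (fderiv ℝ (G adj) x) (x + (0 : ℝ) • v) := by
    simpa using ((G_contDiff adj).differentiable (by norm_num) x).hasFDerivAt
  have h1 := hd.comp_hasDerivAt (0 : ℝ) hl
  have h2 : HasDerivAt (G adj ∘ fun t : ℝ => x + t • v) (DG adj x v) 0 := by
    refine HasDerivAt.prodMk ?_ (HasDerivAt.prodMk ?_ ?_)
    · refine hasDerivAt_pi.2 fun y => hasDerivAt_pi.2 fun k => ?_
      by_cases h : adj y k = true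
      · simp only [h, if_true]
        have e : (fun t : ℝ => g (x + t • v) y k) =
            fun t : ℝ => g x y k + dg x v y k * t + g v y k * t ^ 2 := by
          funext t
          simp only [g, dg, Fin.sum_univ_three, Prod.fst_add, Prod.snd_add, Prod.smul_fst,
            Prod.smul_snd, Pi.add_apply, Pi.smul_apply, smul_eq_mul]
          ring
        rw [e]
        exact quad _ _ _
      · simp only [h]
        have e : (fun t : ℝ => (x + t • v).2.2.2.2 y k) =
            fun t : ℝ => x.2.2.2.2 y k + v.2.2.2.2 y k * t + 0 * t ^ 2 := by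
          funext t
          simp only [Prod.snd_add, Prod.smul_snd, Pi.add_apply, Pi.smul_apply, smul_eq_mul]
          ring
        simp only [Bool.false_eq_true, if_false]
        rw [e]
        exact quad _ _ _
    · simpa using ((hasDerivAt_id (0 : ℝ)).smul_const v.2.2.1).const_add x.2.2.1
    · simpa using ((hasDerivAt_id (0 : ℝ)).smul_const v.2.2.2.1).const_add x.2.2.2.1
  exact h1.unique h2

lemma expand_f (f : TS →ₗ[ℝ] ℝ) (M : Fin 8 → Fin 8 → ℝ) :
    f (M, 0, 0) = ∑ y, ∑ k, M y k * f (Pi.single y (Pi.single k 1), 0, 0) := by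
  have e : ((M, 0, 0) : TS) = ∑ y, ∑ k, M y k • ((Pi.single y (Pi.single k 1), 0, 0) : TS) := by
    refine Prod.ext ?_ ?_
    · funext y k
      simp [Prod.fst_sum, Finset.sum_apply, Pi.single_apply, apply_ite (fun F : Fin 8 → ℝ => F k)]
    · simp [Prod.snd_sum]
  rw [e]
  simp only [map_sum, map_smul, smul_eq_mul]

def NoStress (adj : Fin 8 → Fin 8 → Bool) (x : XS) : Prop :=
  ∀ W : Fin 8 → Fin 8 → ℝ, (∀ y k, adj y k = false → W y k = 0) →
    (∀ y c, ∑ k, W y k * (x.1 y c - x.2.1 k c) = 0) →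
    (∀ k c, ∑ y, W y k * (x.1 y c - x.2.1 k c) = 0) → W = 0

lemma open_of_nostress (adj : Fin 8 → Fin 8 → Bool) (x : XS) (h : NoStress adj x) :
    map (G adj) (𝓝 x) = 𝓝 (G adj x) := by
  have hs : HasStrictFDerivAt (G adj) (fderiv ℝ (G adj) x) x :=
    (G_contDiff adj).contDiffAt.hasStrictFDerivAt (by norm_num)
  refine hs.map_nhds_eq_of_surj ?_
  by_contra hne
  obtain ⟨f, hf0, hle⟩ := Submodule.exists_le_ker_of_lt_top _ (lt_top_iff_ne_top.2 hne)
  have hv : ∀ v : XS, f (DG adj x v) = 0 := fun v => by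
    rw [← fderiv_G]
    exact hle ⟨v, rfl⟩
  set W : Fin 8 → Fin 8 → ℝ := fun y k => f (Pi.single y (Pi.single k 1), 0, 0) with hW
  have hW0 : ∀ y k, adj y k = false → W y k = 0 := by
    intro y k hyk
    have h1 := hv (0, 0, 0, 0, Pi.single y (Pi.single k 1))
    have e : DG adj x (0, 0, 0, 0, Pi.single y (Pi.single k 1)) =
        (Pi.single y (Pi.single k 1), 0, 0) := by
      refine Prod.ext ?_ rfl
      funext y' k'
      simp only [DG, dg]
      by_cases ha : adj y' k' = true
      · by_cases hy : y' = y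
        · subst hy
          by_cases hk : k' = k
          · subst hk
            rw [hyk] at ha
            exact absurd ha (by simp)
          · simp [ha, hk]
        · simp [ha, hy]
      · simp [ha]
    rw [e] at h1
    exact h1
  have key : ∀ (a b : Fin 8 → Fin 3 → ℝ),
      ∑ y, ∑ k, W y k * ∑ c, (x.1 y c - x.2.1 k c) * (a y c - b k c) = 0 := by
    intro a b
    have h1 := hv (a, b, 0, 0, 0)
    have e : DG adj x (a, b, 0, 0, 0) =
        (fun y k => if adj y k then 2 * ∑ c, (x.1 y c - x.2.1 k c) * (a y c - b k c) else 0,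
          0, 0) := by
      refine Prod.ext ?_ rfl
      funext y' k'
      simp [DG, dg]
    rw [e, expand_f] at h1
    have h2 : ∑ y, ∑ k, (if adj y k then 2 * ∑ c, (x.1 y c - x.2.1 k c) * (a y c - b k c) else 0)
        * f (Pi.single y (Pi.single k 1), 0, 0) =
        2 * ∑ y, ∑ k, W y k * ∑ c, (x.1 y c - x.2.1 k c) * (a y c - b k c) := by
      rw [Finset.mul_sum]
      refine Finset.sum_congr rfl fun y _ => ?_
      rw [Finset.mul_sum]
      refine Finset.sum_congr rfl fun k _ => ?_
      by_cases ha : adj y k = true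
      · simp only [ha, if_true, hW]
        ring
      · have := hW0 y k (by simpa using ha)
        simp only [hW] at this
        simp [ha, this, hW]
    linarith
  have hWz : W = 0 := by
    refine h W hW0 ?_ ?_
    · intro y c
      have h1 := key (Pi.single y (Pi.single c 1)) 0
      rw [Finset.sum_eq_single y] at h1
      · simpa [Pi.single_apply] using h1
      · intro y' _ hy'
        simp [hy']
      · simp
    · intro k c
      have h1 := key 0 (Pi.single k (Pi.single c (-1)))
      rw [Finset.sum_comm, Finset.sum_eq_single k] at h1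
      · simpa [Pi.single_apply] using h1
      · intro k' _ hk'
        simp [hk']
      · simp
  have hM : ∀ M : Fin 8 → Fin 8 → ℝ, f (M, 0, 0) = 0 := by
    intro M
    rw [expand_f]
    refine Finset.sum_eq_zero fun y _ => Finset.sum_eq_zero fun k _ => ?_
    have := congrFun (congrFun hWz y) k
    simp only [hW, Pi.zero_apply] at this
    rw [this, mul_zero]
  apply hf0
  refine LinearMap.ext fun ⟨M, a, b⟩ => ?_
  have h1 := hv (0, 0, a, b, 0)
  have e : ((M, a, b) : TS) =
      (M - (DG adj x (0, 0, a, b, 0)).1, 0, 0) + DG adj x (0, 0, a, b, 0) := by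
    refine Prod.ext ?_ ?_
    · simp
    · simp [DG]
  rw [e, map_add, hM, h1]
  simp

lemma exists_generic {ι : Type} [Fintype ι] (N : Set (ι → ℝ)) (r0 : ι → ℝ) (hN : N ∈ 𝓝 r0) :
    ∃ r ∈ N, AlgebraicIndependent ℚ r := by
  classical
  have : Countable (MvPolynomial ι ℚ) :=
    (AddMonoidAlgebra.coeff_injective (R := ℚ) (M := ι →₀ ℕ)).countable
  let S : {p : MvPolynomial ι ℚ // p ≠ 0} → Set (ι → ℝ) :=
    fun p => {r | MvPolynomial.aeval r p.1 ≠ 0}
  have hev : ∀ (p : MvPolynomial ι ℚ) (r : ι → ℝ), MvPolynomial.aeval r p =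
      MvPolynomial.eval r (MvPolynomial.map (algebraMap ℚ ℝ) p) := by
    intro p r
    rw [MvPolynomial.eval_map, MvPolynomial.aeval_def]
  have hO : ∀ p, IsOpen (S p) := by
    intro p
    have hc : Continuous fun r : ι → ℝ => MvPolynomial.aeval r p.1 := by
      simp only [hev]
      exact MvPolynomial.continuous_eval _
    exact isOpen_ne_fun hc continuous_const
  have hD : ∀ p, Dense (S p) := by
    intro p
    rw [dense_iff_inter_open]
    intro U hU ⟨a, ha⟩
    by_contra hne
    obtain ⟨ε, hε, hb⟩ := Metric.isOpen_iff.1 hU a ha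
    have hz : MvPolynomial.map (algebraMap ℚ ℝ) p.1 = 0 := by
      refine MvPolynomial.funext_set (fun i => Set.Ioo (a i - ε) (a i + ε))
        (fun i => Set.Ioo_infinite (by linarith)) ?_
      intro r hr
      rw [← hev, map_zero]
      by_contra hr0
      refine hne ⟨r, hb ?_, hr0⟩
      rw [Metric.mem_ball, dist_pi_lt_iff hε]
      intro i
      have := hr i (Set.mem_univ i)
      rw [Real.dist_eq, abs_lt]
      constructor <;> linarith [this.1, this.2]
    exact p.2 (MvPolynomial.map_injective _ (algebraMap ℚ ℝ).injective (by simpa using hz))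
  have hd := dense_iInter_of_isOpen hO hD
  obtain ⟨r, hr1, hr2⟩ := hd.inter_nhds_nonempty hN
  refine ⟨r, hr2, algebraicIndependent_iff.2 fun p hp => ?_⟩
  by_contra hp0
  exact (Set.mem_iInter.1 hr1 ⟨p, hp0⟩) hp

end Pool.Agent.H.MP_ff42d4_co
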