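import Pool.Agent.H.MP_ff42d4_co.A

set_option autoImplicit false

namespace Pool.Agent.H.MP_ff42d4_co

open Filter Topology

def bf (u : Fin 6 → ℝ) : (Fin 6 → ℝ) →ₗ[ℝ] ℝ where
  toFun v := -2 * (u 0 * v 0 + u 1 * v 1 + u 2 * v 2 - u 3 * v 3) + u 4 * v 5 + u 5 * v 4
  map_add' v w := by simp only [Pi.add_apply]; ring
  map_smul' c v := by simp only [Pi.smul_apply, smul_eq_mul, RingHom.id_apply]; ring

lemma bf_comm (u v : Fin 6 → ℝ) : bf u v = bf v u := by
  simp only [bf, LinearMap.coe_mk, AddHom.coe_mk]; ring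

def L (p : Fin 3 → ℝ) (ρ : ℝ) : Fin 6 → ℝ :=
  ![p 0, p 1, p 2, ρ, 1, p 0 ^ 2 + p 1 ^ 2 + p 2 ^ 2 - ρ ^ 2]

lemma bf_L (p q : Fin 3 → ℝ) (ρ σ : ℝ) :
    bf (L p ρ) (L q σ) = ∑ c, (p c - q c) ^ 2 - (ρ - σ) ^ 2 := by
  simp [bf, L, Fin.sum_univ_three]
  ring

lemma expand (A B e0 e1 e2 e3 X1 X2 X3 J : Fin 6 → ℝ) (hAA : bf A A = 0) (hBB : bf B B = 0)
    (hAB : bf A B ≠ 0) (a0 : bf A e0 = 0) (a1 : bf A e1 = 0) (a2 : bf A e2 = 0)
    (a3 : bf A e3 = 0) (b0 : bf B e0 = 0) (b1 : bf B e1 = 0) (b2 : bf B e2 = 0)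
    (b3 : bf B e3 = 0) (x0 : bf X1 e0 = 0) (x1 : bf X1 e1 ≠ 0) (x2 : bf X1 e2 = 0)
    (x3 : bf X1 e3 = 0) (y0 : bf X2 e0 = 0) (y1 : bf X2 e1 = 0) (y2 : bf X2 e2 ≠ 0)
    (y3 : bf X2 e3 = 0) (z0 : bf X3 e0 = 0) (z1 : bf X3 e1 = 0) (z2 : bf X3 e2 = 0)
    (z3 : bf X3 e3 ≠ 0) (he0 : e0 ≠ 0) (hA : bf A J = 0) (hB : bf B J = 0) :
    ∃ w x y z : ℝ, J = w • e0 + x • e1 + y • e2 + z • e3 := by
  have hBA : bf B A ≠ 0 := by rwa [bf_comm]
  have hli : LinearIndependent ℝ ![A, B, e0, e1, e2, e3] := by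
    rw [Fintype.linearIndependent_iff]
    intro c hc
    simp only [Fin.sum_univ_six, Matrix.cons_val] at hc
    have h1 := congrArg (bf A) hc
    have h2 := congrArg (bf B) hc
    have h3 := congrArg (bf X1) hc
    have h4 := congrArg (bf X2) hc
    have h5 := congrArg (bf X3) hc
    simp only [map_add, map_smul, map_zero, smul_eq_mul, hAA, hBB, a0, a1, a2, a3, b0, b1, b2, b3,
      x0, x2, x3, y0, y1, y3, z0, z1, z2, mul_zero, add_zero, zero_add] at h1 h2 h3 h4 h5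
    have c1 : c 1 = 0 := (mul_eq_zero.1 h1).resolve_right hAB
    have c0 : c 0 = 0 := (mul_eq_zero.1 h2).resolve_right hBA
    simp only [c0, c1, zero_mul, zero_add] at h3 h4 h5
    have c3 : c 3 = 0 := (mul_eq_zero.1 h3).resolve_right x1
    have c4 : c 4 = 0 := (mul_eq_zero.1 h4).resolve_right y2
    have c5 : c 5 = 0 := (mul_eq_zero.1 h5).resolve_right z3
    simp only [c0, c1, c3, c4, c5, zero_smul, zero_add, add_zero] at hc
    have c2 : c 2 = 0 := (smul_eq_zero.1 hc).resolve_right he0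
    intro i
    fin_cases i <;> assumption
  have hsp := hli.span_eq_top_of_card_eq_finrank' (by simp)
  have hJ : J ∈ Submodule.span ℝ (Set.range ![A, B, e0, e1, e2, e3]) := by
    rw [hsp]; trivial
  obtain ⟨c, hc⟩ := (Submodule.mem_span_range_iff_exists_fun ℝ).1 hJ
  simp only [Fin.sum_univ_six, Matrix.cons_val] at hc
  have h1 := congrArg (bf A) hc
  have h2 := congrArg (bf B) hc
  simp only [map_add, map_smul, smul_eq_mul, hAA, hBB, a0, a1, a2, a3, b0, b1, b2, b3, hA, hB,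
    mul_zero, add_zero, zero_add] at h1 h2
  have c1 : c 1 = 0 := (mul_eq_zero.1 h1).resolve_right hAB
  have c0 : c 0 = 0 := (mul_eq_zero.1 h2).resolve_right hBA
  simp only [c0, c1, zero_smul, zero_add] at hc
  exact ⟨c 2, c 3, c 4, c 5, hc.symm⟩

lemma null_expand (e0 e1 e2 e3 : Fin 6 → ℝ) (w x y z : ℝ) (h0 : bf e0 e0 = 0)
    (h1 : bf e1 e1 = 0) (h2 : bf e2 e2 = 0) (h3 : bf e3 e3 = 0)
    (h : bf (w • e0 + x • e1 + y • e2 + z • e3) (w • e0 + x • e1 + y • e2 + z • e3) = 0) :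
    bf e0 e1 * w * x + bf e0 e2 * w * y + bf e0 e3 * w * z + bf e1 e2 * x * y
      + bf e1 e3 * x * z + bf e2 e3 * y * z = 0 := by
  simp only [bf, LinearMap.coe_mk, AddHom.coe_mk, Pi.add_apply, Pi.smul_apply, smul_eq_mul] at *
  linear_combination (1 / 2 : ℝ) * h - w ^ 2 / 2 * h0 - x ^ 2 / 2 * h1 - y ^ 2 / 2 * h2
    - z ^ 2 / 2 * h3

/-- the 40 contacts: rows `0, 1` are the two balls touching all eight corner balls, rows `2..7`
the six face balls; columns are the corners `4a + 2b + c` of a cube. -/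
def adj : Fin 8 → Fin 8 → Bool :=
  ![![true, true, true, true, true, true, true, true],
    ![true, true, true, true, true, true, true, true],
    ![true, true, true, true, false, false, false, false],
    ![false, false, false, false, true, true, true, true],
    ![true, true, false, false, true, true, false, false],
    ![false, false, true, true, false, false, true, true],
    ![true, false, true, false, true, false, true, false],
    ![false, true, false, true, false, true, false, true]]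

def adj' (y k : Fin 8) : Bool := adj y k && !(decide (y = 7 ∧ k = 7))

lemma miquel (Y J : Fin 8 → Fin 6 → ℝ) (hY : ∀ y, bf (Y y) (Y y) = 0)
    (hJ : ∀ k, bf (J k) (J k) = 0) (hAB : bf (Y 0) (Y 1) ≠ 0) (h01 : bf (J 0) (J 1) ≠ 0)
    (he0 : J 0 ≠ 0) (hz : ∀ y k, adj' y k = true → bf (Y y) (J k) = 0)
    (hn : ∀ y k, adj y k = false → bf (Y y) (J k) ≠ 0) : bf (Y 7) (J 7) = 0 := by
  have ex : ∀ k, ∃ w x y z : ℝ, J k = w • J 0 + x • J 4 + y • J 2 + z • J 1 := fun k =>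
    expand (Y 0) (Y 1) (J 0) (J 4) (J 2) (J 1) (Y 2) (Y 4) (Y 6) (J k) (hY 0) (hY 1) hAB
      (hz 0 0 (by decide)) (hz 0 4 (by decide)) (hz 0 2 (by decide)) (hz 0 1 (by decide))
      (hz 1 0 (by decide)) (hz 1 4 (by decide)) (hz 1 2 (by decide)) (hz 1 1 (by decide))
      (hz 2 0 (by decide)) (hn 2 4 (by decide)) (hz 2 2 (by decide)) (hz 2 1 (by decide))
      (hz 4 0 (by decide)) (hz 4 4 (by decide)) (hn 4 2 (by decide)) (hz 4 1 (by decide))
      (hz 6 0 (by decide)) (hz 6 4 (by decide)) (hz 6 2 (by decide)) (hn 6 1 (by decide))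
      he0 (hz 0 k (by revert k; decide)) (hz 1 k (by revert k; decide))
  obtain ⟨w3, x3, y3, z3, e3⟩ := ex 6
  obtain ⟨w2, x2, y2, z2, e2⟩ := ex 5
  obtain ⟨w1, x1, y1, z1, e1⟩ := ex 3
  obtain ⟨w, x, y, z, e⟩ := ex 7
  have n3 := null_expand _ _ _ _ w3 x3 y3 z3 (hJ 0) (hJ 4) (hJ 2) (hJ 1) (e3 ▸ hJ 6)
  have n2 := null_expand _ _ _ _ w2 x2 y2 z2 (hJ 0) (hJ 4) (hJ 2) (hJ 1) (e2 ▸ hJ 5)
  have n1 := null_expand _ _ _ _ w1 x1 y1 z1 (hJ 0) (hJ 4) (hJ 2) (hJ 1) (e1 ▸ hJ 3)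
  have n0 := null_expand _ _ _ _ w x y z (hJ 0) (hJ 4) (hJ 2) (hJ 1) (e ▸ hJ 7)
  have f3 := fun i => congrArg (bf (Y i)) e3
  have f2 := fun i => congrArg (bf (Y i)) e2
  have f1 := fun i => congrArg (bf (Y i)) e1
  have f0 := fun i => congrArg (bf (Y i)) e
  simp only [map_add, map_smul, smul_eq_mul] at f3 f2 f1 f0
  have p20 := hz 2 0 (by decide)
  have p21 := hz 2 1 (by decide)
  have p22 := hz 2 2 (by decide)
  have p23 := hz 2 3 (by decide)
  have p34 := hz 3 4 (by decide)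
  have p35 := hz 3 5 (by decide)
  have p36 := hz 3 6 (by decide)
  have p37 := hz 3 7 (by decide)
  have p40 := hz 4 0 (by decide)
  have p41 := hz 4 1 (by decide)
  have p44 := hz 4 4 (by decide)
  have p45 := hz 4 5 (by decide)
  have p52 := hz 5 2 (by decide)
  have p53 := hz 5 3 (by decide)
  have p56 := hz 5 6 (by decide)
  have p57 := hz 5 7 (by decide)
  have p60 := hz 6 0 (by decide)
  have p62 := hz 6 2 (by decide)
  have p64 := hz 6 4 (by decide)
  have p66 := hz 6 6 (by decide)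
  have p71 := hz 7 1 (by decide)
  have p73 := hz 7 3 (by decide)
  have p75 := hz 7 5 (by decide)
  have q24 := hn 2 4 (by decide)
  have q42 := hn 4 2 (by decide)
  have q61 := hn 6 1 (by decide)
  have q30 := hn 3 0 (by decide)
  have q50 := hn 5 0 (by decide)
  have hz3 : z3 = 0 := by
    have := f3 6
    rw [p66, p60, p64, p62] at this
    exact (mul_eq_zero.1 (by linarith : z3 * bf (Y 6) (J 1) = 0)).resolve_right q61
  have hy2 : y2 = 0 := by
    have := f2 4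
    rw [p45, p40, p44, p41] at this
    exact (mul_eq_zero.1 (by linarith : y2 * bf (Y 4) (J 2) = 0)).resolve_right q42
  have hx1 : x1 = 0 := by
    have := f1 2
    rw [p23, p20, p22, p21] at this
    exact (mul_eq_zero.1 (by linarith : x1 * bf (Y 2) (J 4) = 0)).resolve_right q24
  have nx : ∀ (k : Fin 8) (a b c d : ℝ), adj 2 k = false → bf (Y 2) (J k) =
      a * bf (Y 2) (J 0) + b * bf (Y 2) (J 4) + c * bf (Y 2) (J 2) + d * bf (Y 2) (J 1) →
      b ≠ 0 := by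
    intro k a b c d hk h hb
    rw [p20, p22, p21, hb] at h
    exact hn 2 k hk (by linarith)
  have ny : ∀ (k : Fin 8) (a b c d : ℝ), adj 4 k = false → bf (Y 4) (J k) =
      a * bf (Y 4) (J 0) + b * bf (Y 4) (J 4) + c * bf (Y 4) (J 2) + d * bf (Y 4) (J 1) →
      c ≠ 0 := by
    intro k a b c d hk h hb
    rw [p40, p44, p41, hb] at h
    exact hn 4 k hk (by linarith)
  have nz : ∀ (k : Fin 8) (a b c d : ℝ), adj 6 k = false → bf (Y 6) (J k) =
      a * bf (Y 6) (J 0) + b * bf (Y 6) (J 4) + c * bf (Y 6) (J 2) + d * bf (Y 6) (J 1) →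
      d ≠ 0 := by
    intro k a b c d hk h hb
    rw [p60, p64, p62, hb] at h
    exact hn 6 k hk (by linarith)
  have hx3 := nx 6 _ _ _ _ (by decide) (f3 2)
  have hy3 := ny 6 _ _ _ _ (by decide) (f3 4)
  have hx2 := nx 5 _ _ _ _ (by decide) (f2 2)
  have hz2 := nz 5 _ _ _ _ (by decide) (f2 6)
  have hy1 := ny 3 _ _ _ _ (by decide) (f1 4)
  have hz1 := nz 3 _ _ _ _ (by decide) (f1 6)
  have hzz := nz 7 _ _ _ _ (by decide) (f0 6)
  have A3 := f3 3
  have B3 := f3 5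
  have A2 := f2 3
  have C2 := f2 7
  have B1 := f1 5
  have C1 := f1 7
  have A0 := f0 3
  have B0 := f0 5
  have C0 := f0 7
  rw [p36, p34, hz3] at A3
  rw [p56, p52, hz3] at B3
  rw [p35, p34, hy2] at A2
  rw [p75, p71, hy2] at C2
  rw [p53, p52, hx1] at B1
  rw [p73, p71, hx1] at C1
  rw [p37, p34] at A0
  rw [p57, p52] at B0
  rw [p71] at C0
  rw [hz3] at n3
  rw [hy2] at n2
  rw [hx1] at n1
  set a0 := bf (Y 3) (J 0)
  set a2 := bf (Y 3) (J 2)
  set a3 := bf (Y 3) (J 1)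
  set b0 := bf (Y 5) (J 0)
  set b1 := bf (Y 5) (J 4)
  set b3 := bf (Y 5) (J 1)
  set c0 := bf (Y 7) (J 0)
  set c1 := bf (Y 7) (J 4)
  set c2 := bf (Y 7) (J 2)
  set g01 := bf (J 0) (J 4)
  set g02 := bf (J 0) (J 2)
  set g03 := bf (J 0) (J 1)
  set g12 := bf (J 4) (J 2)
  set g13 := bf (J 4) (J 1)
  set g23 := bf (J 2) (J 1)
  have R12 : a0 * b0 * g12 - g01 * b0 * a2 - g02 * a0 * b1 = 0 := by
    refine (mul_eq_zero.1 (?_ : (x3 * y3) * _ = 0)).resolve_left (mul_ne_zero hx3 hy3)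
    linear_combination a0 * b0 * n3 + g01 * x3 * b0 * A3 + g02 * y3 * a0 * B3
  have R13 : a0 * c0 * g13 - g01 * c0 * a3 - g03 * a0 * c1 = 0 := by
    refine (mul_eq_zero.1 (?_ : (x2 * z2) * _ = 0)).resolve_left (mul_ne_zero hx2 hz2)
    linear_combination a0 * c0 * n2 + g01 * x2 * c0 * A2 + g03 * z2 * a0 * C2
  have R23 : b0 * c0 * g23 - g02 * c0 * b3 - g03 * b0 * c2 = 0 := by
    refine (mul_eq_zero.1 (?_ : (y1 * z1) * _ = 0)).resolve_left (mul_ne_zero hy1 hz1)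
    linear_combination b0 * c0 * n1 + g02 * y1 * c0 * B1 + g03 * z1 * b0 * C1
  refine (mul_eq_zero.1 (?_ : (g03 * z * a0 * b0) * _ = 0)).resolve_left
    (mul_ne_zero (mul_ne_zero (mul_ne_zero h01 hzz) q30) q50)
  linear_combination (g03 * z * a0 * b0) * C0 + a0 * b0 * c0 * n0 + g01 * x * b0 * c0 * A0
    + g02 * y * a0 * c0 * B0 - c0 * x * y * R12 - b0 * x * z * R13 - a0 * y * z * R23

def U : Set XS := {x | (∀ y, 0 < x.2.2.1 y) ∧ (∀ k, 0 < x.2.2.2.1 k) ∧
  (∀ y k, adj y k = false → 0 < g x y k) ∧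
  (∀ y y', y ≠ y' → (x.2.2.1 y + x.2.2.1 y') ^ 2 < ∑ c, (x.1 y c - x.1 y' c) ^ 2) ∧
  (∀ k k', k ≠ k' → (x.2.2.2.1 k + x.2.2.2.1 k') ^ 2 < ∑ c, (x.2.1 k c - x.2.1 k' c) ^ 2)}

lemma isOpen_U : IsOpen U := by
  simp only [U, Set.ofPred_and, Set.ofPred_forall]
  refine IsOpen.inter ?_ (IsOpen.inter ?_ (IsOpen.inter ?_ (IsOpen.inter ?_ ?_)))
  · exact isOpen_iInter_of_finite fun y => isOpen_lt (by fun_prop) (by fun_prop)
  · exact isOpen_iInter_of_finite fun y => isOpen_lt (by fun_prop) (by fun_prop)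
  · exact isOpen_iInter_of_finite fun y => isOpen_iInter_of_finite fun k =>
      isOpen_iInter_of_finite fun _ => isOpen_lt (by fun_prop) (g_contDiff y k).continuous
  · exact isOpen_iInter_of_finite fun y => isOpen_iInter_of_finite fun k =>
      isOpen_iInter_of_finite fun _ => isOpen_lt (by fun_prop) (by fun_prop)
  · exact isOpen_iInter_of_finite fun y => isOpen_iInter_of_finite fun k =>
      isOpen_iInter_of_finite fun _ => isOpen_lt (by fun_prop) (by fun_prop)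

lemma miquel_U (x : XS) (hx : x ∈ U) (hz : ∀ y k, adj' y k = true → g x y k = 0) :
    g x 7 7 = 0 := by
  obtain ⟨h1, h2, h3, h4, h5⟩ := hx
  have hg : ∀ y k, bf (L (x.1 y) (-x.2.2.1 y)) (L (x.2.1 k) (x.2.2.2.1 k)) = g x y k := by
    intro y k
    rw [bf_L, g]
    ring
  rw [← hg]
  refine miquel (fun y => L (x.1 y) (-x.2.2.1 y)) (fun k => L (x.2.1 k) (x.2.2.2.1 k))
    (fun y => by rw [bf_L]; simp) (fun k => by rw [bf_L]; simp) ?_ ?_ ?_
    (fun y k h => by rw [hg]; exact hz y k h) (fun y k h => by rw [hg]; exact (h3 y k h).ne')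
  · rw [bf_L]
    have := h4 0 1 (by decide)
    have := mul_pos (h1 0) (h1 1)
    nlinarith
  · rw [bf_L]
    have := h5 0 1 (by decide)
    have := mul_pos (h2 0) (h2 1)
    nlinarith
  · intro h
    have := congrFun h 4
    simp [L] at this

/-- On `U`, a point with the 39 contacts carries a stress on the 40 contacts. -/
lemma stress_of_U (x : XS) (hx : x ∈ U) (hz : ∀ y k, adj' y k = true → g x y k = 0) :
    ¬ NoStress adj x := by
  intro h
  have hm := open_of_nostress adj x h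
  have hN : G adj '' U ∈ 𝓝 (G adj x) := by
    rw [← hm]
    exact image_mem_map (isOpen_U.mem_nhds hx)
  have hc : Continuous fun t : ℝ =>
      G adj x + t • ((Pi.single 7 (Pi.single 7 1), 0, 0) : TS) := by fun_prop
  have ht := hc.continuousAt (x := 0)
  rw [ContinuousAt, zero_smul, add_zero] at ht
  have hev : ∀ᶠ t in 𝓝[≠] (0 : ℝ), G adj x + t • ((Pi.single 7 (Pi.single 7 1), 0, 0) : TS)
      ∈ G adj '' U := nhdsWithin_le_nhds (ht hN)
  obtain ⟨t, ⟨x', hx', he⟩, ht0⟩ := (hev.and self_mem_nhdsWithin).exists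
  have he1 : ∀ y k, adj y k = true → g x' y k =
      g x y k + t * (Pi.single 7 (Pi.single 7 1) : Fin 8 → Fin 8 → ℝ) y k := by
    intro y k hyk
    have := congrFun (congrFun (congrArg Prod.fst he) y) k
    simpa [G, hyk] using this
  have hz' : ∀ y k, adj' y k = true → g x' y k = 0 := by
    intro y k hyk
    have h1 : adj y k = true ∧ ¬ (y = 7 ∧ k = 7) := by
      simpa [adj', -not_and, not_and_or] using hyk
    rw [he1 y k h1.1, hz y k hyk]
    by_cases hy : y = 7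
    · have hk : k ≠ 7 := fun hk => h1.2 ⟨hy, hk⟩
      simp [hy, hk]
    · simp [hy]
  have h7 := he1 7 7 (by decide)
  rw [miquel_U x' hx' hz', miquel_U x hx hz] at h7
  exact ht0 (by simpa using h7.symm)

end Pool.Agent.H.MP_ff42d4_co
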