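import Pool.Agent.H.MP_ff42d4_co.B

set_option autoImplicit false
set_option linter.unusedSimpArgs false

namespace Pool.Agent.H.MP_ff42d4_co

open Filter Topology

def P0 : Fin 8 → Fin 3 → ℚ :=
  ![![-16 / 237, -16 / 237, 0],
    ![48 / 3337, 48 / 3337, 0],
    ![-120 / 3989, -48 / 3989, 6 / 3989],
    ![24 / 533, -48 / 533, 6 / 533],
    ![-48 / 3989, -120 / 3989, -6 / 3989],
    ![-48 / 533, 24 / 533, -6 / 533],
    ![-144 / 7909, -144 / 7909, -256 / 7909],
    ![-144 / 7909, -144 / 7909, 256 / 7909]]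

def Q0 : Fin 8 → Fin 3 → ℚ :=
  ![![-104 / 5055, -32 / 1685, -16 / 1685],
    ![-32 / 1685, -104 / 5055, 16 / 1685],
    ![-104 / 2751, 0, -16 / 917],
    ![-32 / 789, 8 / 2367, 16 / 789],
    ![8 / 2367, -32 / 789, -16 / 789],
    ![0, -104 / 2751, 16 / 917],
    ![8 / 63, 0, -16 / 21],
    ![0, 8 / 63, 16 / 21]]

def R0 : Fin 8 → ℚ :=
  ![14 / 237, 134 / 3337, 28 / 3989, 28 / 533, 28 / 3989, 28 / 533, 10 / 719, 10 / 719]

def S0 : Fin 8 → ℚ :=
  ![46 / 5055, 46 / 5055, 46 / 2751, 46 / 2367, 46 / 2367, 46 / 2751, 46 / 63, 46 / 63]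

def x0 : XS :=
  (fun y c => (P0 y c : ℝ), fun k c => (Q0 k c : ℝ), fun y => (R0 y : ℝ), fun k => (S0 k : ℝ), 0)

def g0 (y k : Fin 8) : ℚ := ∑ c, (P0 y c - Q0 k c) ^ 2 - (R0 y + S0 k) ^ 2

lemma g_x0 (y k : Fin 8) : g x0 y k = (g0 y k : ℝ) := by
  simp [g, g0, x0]

lemma x0_mem : x0 ∈ U := by
  have h1 : ∀ y, 0 < R0 y := by decide +kernel
  have h2 : ∀ y, 0 < S0 y := by decide +kernel
  have h3 : ∀ y k, adj y k = false → 0 < g0 y k := by decide +kernel
  have h4 : ∀ y y', y ≠ y' → (R0 y + R0 y') ^ 2 < ∑ c, (P0 y c - P0 y' c) ^ 2 := by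
    decide +kernel
  have h5 : ∀ y y', y ≠ y' → (S0 y + S0 y') ^ 2 < ∑ c, (Q0 y c - Q0 y' c) ^ 2 := by
    decide +kernel
  refine ⟨fun y => ?_, fun y => ?_, fun y k h => ?_, fun y y' h => ?_, fun y y' h => ?_⟩
  · simp only [x0]
    exact_mod_cast h1 y
  · simp only [x0]
    exact_mod_cast h2 y
  · rw [g_x0]
    exact_mod_cast h3 y k h
  · simp only [x0]
    exact_mod_cast h4 y y' h
  · simp only [x0]
    exact_mod_cast h5 y y' h

lemma x0_contact (y k : Fin 8) (h : adj' y k = true) : g x0 y k = 0 := by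
  have h3 : ∀ y k, adj' y k = true → g0 y k = 0 := by decide +kernel
  rw [g_x0, h3 y k h]
  simp

lemma x0_nostress : NoStress adj' x0 := by
  intro W h0 hY hJ
  have w24 : W 2 4 = 0 := h0 2 4 (by decide)
  have w25 : W 2 5 = 0 := h0 2 5 (by decide)
  have w26 : W 2 6 = 0 := h0 2 6 (by decide)
  have w27 : W 2 7 = 0 := h0 2 7 (by decide)
  have w30 : W 3 0 = 0 := h0 3 0 (by decide)
  have w31 : W 3 1 = 0 := h0 3 1 (by decide)
  have w32 : W 3 2 = 0 := h0 3 2 (by decide)
  have w33 : W 3 3 = 0 := h0 3 3 (by decide)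
  have w42 : W 4 2 = 0 := h0 4 2 (by decide)
  have w43 : W 4 3 = 0 := h0 4 3 (by decide)
  have w46 : W 4 6 = 0 := h0 4 6 (by decide)
  have w47 : W 4 7 = 0 := h0 4 7 (by decide)
  have w50 : W 5 0 = 0 := h0 5 0 (by decide)
  have w51 : W 5 1 = 0 := h0 5 1 (by decide)
  have w54 : W 5 4 = 0 := h0 5 4 (by decide)
  have w55 : W 5 5 = 0 := h0 5 5 (by decide)
  have w61 : W 6 1 = 0 := h0 6 1 (by decide)
  have w63 : W 6 3 = 0 := h0 6 3 (by decide)
  have w65 : W 6 5 = 0 := h0 6 5 (by decide)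
  have w67 : W 6 7 = 0 := h0 6 7 (by decide)
  have w70 : W 7 0 = 0 := h0 7 0 (by decide)
  have w72 : W 7 2 = 0 := h0 7 2 (by decide)
  have w74 : W 7 4 = 0 := h0 7 4 (by decide)
  have w76 : W 7 6 = 0 := h0 7 6 (by decide)
  have w77 : W 7 7 = 0 := h0 7 7 (by decide)
  have eJ00 : W 0 0 * (-6248 / 133115) + W 1 0 * (589688 / 16868535) + W 2 0 * (-191744 / 20164395) + W 4 0 * (172216 / 20164395) + W 6 0 * (94616 / 39979995) = 0 := by
    have := hJ 0 0
    simp only [Fin.sum_univ_eight, x0, P0, Q0, Matrix.cons_val, w24, w25, w26, w27, w30, w31, w32, w33, w42, w43, w46, w47, w50, w51, w54, w55, w61, w63, w65, w67, w70, w72, w74, w76, w77, zero_mul] at this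
    push_cast at this
    linear_combination this
  have eJ01 : W 0 0 * (-19376 / 399345) + W 1 0 * (187664 / 5622845) + W 2 0 * (46768 / 6721465) + W 4 0 * (-74552 / 6721465) + W 6 0 * (10448 / 13326665) = 0 := by
    have := hJ 0 1
    simp only [Fin.sum_univ_eight, x0, P0, Q0, Matrix.cons_val, w24, w25, w26, w27, w30, w31, w32, w33, w42, w43, w46, w47, w50, w51, w54, w55, w61, w63, w65, w67, w70, w72, w74, w76, w77, zero_mul] at this
    push_cast at this
    linear_combination this
  have eJ02 : W 0 0 * (16 / 1685) + W 1 0 * (16 / 1685) + W 2 0 * (73934 / 6721465) + W 4 0 * (53714 / 6721465) + W 6 0 * (-304816 / 13326665) = 0 := by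
    have := hJ 0 2
    simp only [Fin.sum_univ_eight, x0, P0, Q0, Matrix.cons_val, w24, w25, w26, w27, w30, w31, w32, w33, w42, w43, w46, w47, w50, w51, w54, w55, w61, w63, w65, w67, w70, w72, w74, w76, w77, zero_mul] at this
    push_cast at this
    linear_combination this
  have eJ10 : W 0 1 * (-19376 / 399345) + W 1 1 * (187664 / 5622845) + W 2 1 * (-74552 / 6721465) + W 4 1 * (46768 / 6721465) + W 7 1 * (10448 / 13326665) = 0 := by
    have := hJ 1 0
    simp only [Fin.sum_univ_eight, x0, P0, Q0, Matrix.cons_val, w24, w25, w26, w27, w30, w31, w32, w33, w42, w43, w46, w47, w50, w51, w54, w55, w61, w63, w65, w67, w70, w72, w74, w76, w77, zero_mul] at this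
    push_cast at this
    linear_combination this
  have eJ11 : W 0 1 * (-6248 / 133115) + W 1 1 * (589688 / 16868535) + W 2 1 * (172216 / 20164395) + W 4 1 * (-191744 / 20164395) + W 7 1 * (94616 / 39979995) = 0 := by
    have := hJ 1 1
    simp only [Fin.sum_univ_eight, x0, P0, Q0, Matrix.cons_val, w24, w25, w26, w27, w30, w31, w32, w33, w42, w43, w46, w47, w50, w51, w54, w55, w61, w63, w65, w67, w70, w72, w74, w76, w77, zero_mul] at this
    push_cast at this
    linear_combination this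
  have eJ12 : W 0 1 * (-16 / 1685) + W 1 1 * (-16 / 1685) + W 2 1 * (-53714 / 6721465) + W 4 1 * (-73934 / 6721465) + W 7 1 * (304816 / 13326665) = 0 := by
    have := hJ 1 2
    simp only [Fin.sum_univ_eight, x0, P0, Q0, Matrix.cons_val, w24, w25, w26, w27, w30, w31, w32, w33, w42, w43, w46, w47, w50, w51, w54, w55, w61, w63, w65, w67, w70, w72, w74, w76, w77, zero_mul] at this
    push_cast at this
    linear_combination this
  have eJ20 : W 0 2 * (-2152 / 72443) + W 1 2 * (479096 / 9180087) + W 2 2 * (84736 / 10973739) + W 5 2 * (-76616 / 1466283) + W 6 2 * (426392 / 21757659) = 0 := by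
    have := hJ 2 0
    simp only [Fin.sum_univ_eight, x0, P0, Q0, Matrix.cons_val, w24, w25, w26, w27, w30, w31, w32, w33, w42, w43, w46, w47, w50, w51, w54, w55, w61, w63, w65, w67, w70, w72, w74, w76, w77, zero_mul] at this
    push_cast at this
    linear_combination this
  have eJ21 : W 0 2 * (-16 / 237) + W 1 2 * (48 / 3337) + W 2 2 * (-48 / 3989) + W 5 2 * (24 / 533) + W 6 2 * (-144 / 7909) = 0 := by
    have := hJ 2 1
    simp only [Fin.sum_univ_eight, x0, P0, Q0, Matrix.cons_val, w24, w25, w26, w27, w30, w31, w32, w33, w42, w43, w46, w47, w50, w51, w54, w55, w61, w63, w65, w67, w70, w72, w74, w76, w77, zero_mul] at this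
    push_cast at this
    linear_combination this
  have eJ22 : W 0 2 * (16 / 917) + W 1 2 * (16 / 917) + W 2 2 * (69326 / 3657913) + W 5 2 * (3026 / 488761) + W 6 2 * (-108208 / 7252553) = 0 := by
    have := hJ 2 2
    simp only [Fin.sum_univ_eight, x0, P0, Q0, Matrix.cons_val, w24, w25, w26, w27, w30, w31, w32, w33, w42, w43, w46, w47, w50, w51, w54, w55, w61, w63, w65, w67, w70, w72, w74, w76, w77, zero_mul] at this
    push_cast at this
    linear_combination this
  have eJ30 : W 0 3 * (-560 / 20777) + W 1 3 * (144656 / 2632893) + W 2 3 * (32968 / 3147321) + W 5 3 * (-20816 / 420537) + W 7 3 * (139472 / 6240201) = 0 := by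
    have := hJ 3 0
    simp only [Fin.sum_univ_eight, x0, P0, Q0, Matrix.cons_val, w24, w25, w26, w27, w30, w31, w32, w33, w42, w43, w46, w47, w50, w51, w54, w55, w61, w63, w65, w67, w70, w72, w74, w76, w77, zero_mul] at this
    push_cast at this
    linear_combination this
  have eJ31 : W 0 3 * (-13256 / 186993) + W 1 3 * (86920 / 7898679) + W 2 3 * (-145528 / 9441963) + W 5 3 * (52544 / 1261611) + W 7 3 * (-404120 / 18720603) = 0 := by
    have := hJ 3 1
    simp only [Fin.sum_univ_eight, x0, P0, Q0, Matrix.cons_val, w24, w25, w26, w27, w30, w31, w32, w33, w42, w43, w46, w47, w50, w51, w54, w55, w61, w63, w65, w67, w70, w72, w74, w76, w77, zero_mul] at this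
    push_cast at this
    linear_combination this
  have eJ32 : W 0 3 * (-16 / 789) + W 1 3 * (-16 / 789) + W 2 3 * (-59090 / 3147321) + W 5 3 * (-13262 / 420537) + W 7 3 * (75440 / 6240201) = 0 := by
    have := hJ 3 2
    simp only [Fin.sum_univ_eight, x0, P0, Q0, Matrix.cons_val, w24, w25, w26, w27, w30, w31, w32, w33, w42, w43, w46, w47, w50, w51, w54, w55, w61, w63, w65, w67, w70, w72, w74, w76, w77, zero_mul] at this
    push_cast at this
    linear_combination this
  have eJ40 : W 0 4 * (-13256 / 186993) + W 1 4 * (86920 / 7898679) + W 3 4 * (52544 / 1261611) + W 4 4 * (-145528 / 9441963) + W 6 4 * (-404120 / 18720603) = 0 := by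
    have := hJ 4 0
    simp only [Fin.sum_univ_eight, x0, P0, Q0, Matrix.cons_val, w24, w25, w26, w27, w30, w31, w32, w33, w42, w43, w46, w47, w50, w51, w54, w55, w61, w63, w65, w67, w70, w72, w74, w76, w77, zero_mul] at this
    push_cast at this
    linear_combination this
  have eJ41 : W 0 4 * (-560 / 20777) + W 1 4 * (144656 / 2632893) + W 3 4 * (-20816 / 420537) + W 4 4 * (32968 / 3147321) + W 6 4 * (139472 / 6240201) = 0 := by
    have := hJ 4 1
    simp only [Fin.sum_univ_eight, x0, P0, Q0, Matrix.cons_val, w24, w25, w26, w27, w30, w31, w32, w33, w42, w43, w46, w47, w50, w51, w54, w55, w61, w63, w65, w67, w70, w72, w74, w76, w77, zero_mul] at this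
    push_cast at this
    linear_combination this
  have eJ50 : W 0 5 * (-16 / 237) + W 1 5 * (48 / 3337) + W 3 5 * (24 / 533) + W 4 5 * (-48 / 3989) + W 7 5 * (-144 / 7909) = 0 := by
    have := hJ 5 0
    simp only [Fin.sum_univ_eight, x0, P0, Q0, Matrix.cons_val, w24, w25, w26, w27, w30, w31, w32, w33, w42, w43, w46, w47, w50, w51, w54, w55, w61, w63, w65, w67, w70, w72, w74, w76, w77, zero_mul] at this
    push_cast at this
    linear_combination this
  have eJ51 : W 0 5 * (-2152 / 72443) + W 1 5 * (479096 / 9180087) + W 3 5 * (-76616 / 1466283) + W 4 5 * (84736 / 10973739) + W 7 5 * (426392 / 21757659) = 0 := by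
    have := hJ 5 1
    simp only [Fin.sum_univ_eight, x0, P0, Q0, Matrix.cons_val, w24, w25, w26, w27, w30, w31, w32, w33, w42, w43, w46, w47, w50, w51, w54, w55, w61, w63, w65, w67, w70, w72, w74, w76, w77, zero_mul] at this
    push_cast at this
    linear_combination this
  have eJ52 : W 0 5 * (-16 / 917) + W 1 5 * (-16 / 917) + W 3 5 * (-3026 / 488761) + W 4 5 * (-69326 / 3657913) + W 7 5 * (108208 / 7252553) = 0 := by
    have := hJ 5 2
    simp only [Fin.sum_univ_eight, x0, P0, Q0, Matrix.cons_val, w24, w25, w26, w27, w30, w31, w32, w33, w42, w43, w46, w47, w50, w51, w54, w55, w61, w63, w65, w67, w70, w72, w74, w76, w77, zero_mul] at this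
    push_cast at this
    linear_combination this
  have eJ60 : W 0 6 * (-968 / 4977) + W 1 6 * (-23672 / 210231) + W 3 6 * (-2752 / 33579) + W 5 6 * (-7288 / 33579) + W 6 6 * (-72344 / 498267) = 0 := by
    have := hJ 6 0
    simp only [Fin.sum_univ_eight, x0, P0, Q0, Matrix.cons_val, w24, w25, w26, w27, w30, w31, w32, w33, w42, w43, w46, w47, w50, w51, w54, w55, w61, w63, w65, w67, w70, w72, w74, w76, w77, zero_mul] at this
    push_cast at this
    linear_combination this
  have eJ61 : W 0 6 * (-16 / 237) + W 1 6 * (48 / 3337) + W 3 6 * (-48 / 533) + W 5 6 * (24 / 533) + W 6 6 * (-144 / 7909) = 0 := by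
    have := hJ 6 1
    simp only [Fin.sum_univ_eight, x0, P0, Q0, Matrix.cons_val, w24, w25, w26, w27, w30, w31, w32, w33, w42, w43, w46, w47, w50, w51, w54, w55, w61, w63, w65, w67, w70, w72, w74, w76, w77, zero_mul] at this
    push_cast at this
    linear_combination this
  have eJ70 : W 0 7 * (-16 / 237) + W 1 7 * (48 / 3337) + W 3 7 * (24 / 533) + W 5 7 * (-48 / 533) = 0 := by
    have := hJ 7 0
    simp only [Fin.sum_univ_eight, x0, P0, Q0, Matrix.cons_val, w24, w25, w26, w27, w30, w31, w32, w33, w42, w43, w46, w47, w50, w51, w54, w55, w61, w63, w65, w67, w70, w72, w74, w76, w77, zero_mul] at this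
    push_cast at this
    linear_combination this
  have eJ71 : W 0 7 * (-968 / 4977) + W 1 7 * (-23672 / 210231) + W 3 7 * (-7288 / 33579) + W 5 7 * (-2752 / 33579) = 0 := by
    have := hJ 7 1
    simp only [Fin.sum_univ_eight, x0, P0, Q0, Matrix.cons_val, w24, w25, w26, w27, w30, w31, w32, w33, w42, w43, w46, w47, w50, w51, w54, w55, w61, w63, w65, w67, w70, w72, w74, w76, w77, zero_mul] at this
    push_cast at this
    linear_combination this
  have eJ72 : W 0 7 * (-16 / 21) + W 1 7 * (-16 / 21) + W 3 7 * (-8402 / 11193) + W 5 7 * (-8654 / 11193) = 0 := by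
    have := hJ 7 2
    simp only [Fin.sum_univ_eight, x0, P0, Q0, Matrix.cons_val, w24, w25, w26, w27, w30, w31, w32, w33, w42, w43, w46, w47, w50, w51, w54, w55, w61, w63, w65, w67, w70, w72, w74, w76, w77, zero_mul] at this
    push_cast at this
    linear_combination this
  have eY20 : W 2 0 * (-191744 / 20164395) + W 2 1 * (-74552 / 6721465) + W 2 2 * (84736 / 10973739) + W 2 3 * (32968 / 3147321) = 0 := by
    have := hY 2 0
    simp only [Fin.sum_univ_eight, x0, P0, Q0, Matrix.cons_val, w24, w25, w26, w27, w30, w31, w32, w33, w42, w43, w46, w47, w50, w51, w54, w55, w61, w63, w65, w67, w70, w72, w74, w76, w77, zero_mul] at this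
    push_cast at this
    linear_combination this
  have eY21 : W 2 0 * (46768 / 6721465) + W 2 1 * (172216 / 20164395) + W 2 2 * (-48 / 3989) + W 2 3 * (-145528 / 9441963) = 0 := by
    have := hY 2 1
    simp only [Fin.sum_univ_eight, x0, P0, Q0, Matrix.cons_val, w24, w25, w26, w27, w30, w31, w32, w33, w42, w43, w46, w47, w50, w51, w54, w55, w61, w63, w65, w67, w70, w72, w74, w76, w77, zero_mul] at this
    push_cast at this
    linear_combination this
  have eY22 : W 2 0 * (73934 / 6721465) + W 2 1 * (-53714 / 6721465) + W 2 2 * (69326 / 3657913) + W 2 3 * (-59090 / 3147321) = 0 := by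
    have := hY 2 2
    simp only [Fin.sum_univ_eight, x0, P0, Q0, Matrix.cons_val, w24, w25, w26, w27, w30, w31, w32, w33, w42, w43, w46, w47, w50, w51, w54, w55, w61, w63, w65, w67, w70, w72, w74, w76, w77, zero_mul] at this
    push_cast at this
    linear_combination this
  have eY30 : W 3 4 * (52544 / 1261611) + W 3 5 * (24 / 533) + W 3 6 * (-2752 / 33579) + W 3 7 * (24 / 533) = 0 := by
    have := hY 3 0
    simp only [Fin.sum_univ_eight, x0, P0, Q0, Matrix.cons_val, w24, w25, w26, w27, w30, w31, w32, w33, w42, w43, w46, w47, w50, w51, w54, w55, w61, w63, w65, w67, w70, w72, w74, w76, w77, zero_mul] at this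
    push_cast at this
    linear_combination this
  have eY31 : W 3 4 * (-20816 / 420537) + W 3 5 * (-76616 / 1466283) + W 3 6 * (-48 / 533) + W 3 7 * (-7288 / 33579) = 0 := by
    have := hY 3 1
    simp only [Fin.sum_univ_eight, x0, P0, Q0, Matrix.cons_val, w24, w25, w26, w27, w30, w31, w32, w33, w42, w43, w46, w47, w50, w51, w54, w55, w61, w63, w65, w67, w70, w72, w74, w76, w77, zero_mul] at this
    push_cast at this
    linear_combination this
  have eY32 : W 3 4 * (13262 / 420537) + W 3 5 * (-3026 / 488761) + W 3 6 * (8654 / 11193) + W 3 7 * (-8402 / 11193) = 0 := by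
    have := hY 3 2
    simp only [Fin.sum_univ_eight, x0, P0, Q0, Matrix.cons_val, w24, w25, w26, w27, w30, w31, w32, w33, w42, w43, w46, w47, w50, w51, w54, w55, w61, w63, w65, w67, w70, w72, w74, w76, w77, zero_mul] at this
    push_cast at this
    linear_combination this
  have eY40 : W 4 0 * (172216 / 20164395) + W 4 1 * (46768 / 6721465) + W 4 4 * (-145528 / 9441963) + W 4 5 * (-48 / 3989) = 0 := by
    have := hY 4 0
    simp only [Fin.sum_univ_eight, x0, P0, Q0, Matrix.cons_val, w24, w25, w26, w27, w30, w31, w32, w33, w42, w43, w46, w47, w50, w51, w54, w55, w61, w63, w65, w67, w70, w72, w74, w76, w77, zero_mul] at this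
    push_cast at this
    linear_combination this
  have eY41 : W 4 0 * (-74552 / 6721465) + W 4 1 * (-191744 / 20164395) + W 4 4 * (32968 / 3147321) + W 4 5 * (84736 / 10973739) = 0 := by
    have := hY 4 1
    simp only [Fin.sum_univ_eight, x0, P0, Q0, Matrix.cons_val, w24, w25, w26, w27, w30, w31, w32, w33, w42, w43, w46, w47, w50, w51, w54, w55, w61, w63, w65, w67, w70, w72, w74, w76, w77, zero_mul] at this
    push_cast at this
    linear_combination this
  have eY42 : W 4 0 * (53714 / 6721465) + W 4 1 * (-73934 / 6721465) + W 4 4 * (59090 / 3147321) + W 4 5 * (-69326 / 3657913) = 0 := by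
    have := hY 4 2
    simp only [Fin.sum_univ_eight, x0, P0, Q0, Matrix.cons_val, w24, w25, w26, w27, w30, w31, w32, w33, w42, w43, w46, w47, w50, w51, w54, w55, w61, w63, w65, w67, w70, w72, w74, w76, w77, zero_mul] at this
    push_cast at this
    linear_combination this
  have eY50 : W 5 2 * (-76616 / 1466283) + W 5 3 * (-20816 / 420537) + W 5 6 * (-7288 / 33579) + W 5 7 * (-48 / 533) = 0 := by
    have := hY 5 0
    simp only [Fin.sum_univ_eight, x0, P0, Q0, Matrix.cons_val, w24, w25, w26, w27, w30, w31, w32, w33, w42, w43, w46, w47, w50, w51, w54, w55, w61, w63, w65, w67, w70, w72, w74, w76, w77, zero_mul] at this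
    push_cast at this
    linear_combination this
  have eY51 : W 5 2 * (24 / 533) + W 5 3 * (52544 / 1261611) + W 5 6 * (24 / 533) + W 5 7 * (-2752 / 33579) = 0 := by
    have := hY 5 1
    simp only [Fin.sum_univ_eight, x0, P0, Q0, Matrix.cons_val, w24, w25, w26, w27, w30, w31, w32, w33, w42, w43, w46, w47, w50, w51, w54, w55, w61, w63, w65, w67, w70, w72, w74, w76, w77, zero_mul] at this
    push_cast at this
    linear_combination this
  have eY52 : W 5 2 * (3026 / 488761) + W 5 3 * (-13262 / 420537) + W 5 6 * (8402 / 11193) + W 5 7 * (-8654 / 11193) = 0 := by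
    have := hY 5 2
    simp only [Fin.sum_univ_eight, x0, P0, Q0, Matrix.cons_val, w24, w25, w26, w27, w30, w31, w32, w33, w42, w43, w46, w47, w50, w51, w54, w55, w61, w63, w65, w67, w70, w72, w74, w76, w77, zero_mul] at this
    push_cast at this
    linear_combination this
  have eY60 : W 6 0 * (94616 / 39979995) + W 6 2 * (426392 / 21757659) + W 6 4 * (-404120 / 18720603) + W 6 6 * (-72344 / 498267) = 0 := by
    have := hY 6 0
    simp only [Fin.sum_univ_eight, x0, P0, Q0, Matrix.cons_val, w24, w25, w26, w27, w30, w31, w32, w33, w42, w43, w46, w47, w50, w51, w54, w55, w61, w63, w65, w67, w70, w72, w74, w76, w77, zero_mul] at this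
    push_cast at this
    linear_combination this
  have eY61 : W 6 0 * (10448 / 13326665) + W 6 2 * (-144 / 7909) + W 6 4 * (139472 / 6240201) + W 6 6 * (-144 / 7909) = 0 := by
    have := hY 6 1
    simp only [Fin.sum_univ_eight, x0, P0, Q0, Matrix.cons_val, w24, w25, w26, w27, w30, w31, w32, w33, w42, w43, w46, w47, w50, w51, w54, w55, w61, w63, w65, w67, w70, w72, w74, w76, w77, zero_mul] at this
    push_cast at this
    linear_combination this
  have eY70 : W 7 1 * (10448 / 13326665) + W 7 3 * (139472 / 6240201) + W 7 5 * (-144 / 7909) = 0 := by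
    have := hY 7 0
    simp only [Fin.sum_univ_eight, x0, P0, Q0, Matrix.cons_val, w24, w25, w26, w27, w30, w31, w32, w33, w42, w43, w46, w47, w50, w51, w54, w55, w61, w63, w65, w67, w70, w72, w74, w76, w77, zero_mul] at this
    push_cast at this
    linear_combination this
  have eY71 : W 7 1 * (94616 / 39979995) + W 7 3 * (-404120 / 18720603) + W 7 5 * (426392 / 21757659) = 0 := by
    have := hY 7 1
    simp only [Fin.sum_univ_eight, x0, P0, Q0, Matrix.cons_val, w24, w25, w26, w27, w30, w31, w32, w33, w42, w43, w46, w47, w50, w51, w54, w55, w61, w63, w65, w67, w70, w72, w74, w76, w77, zero_mul] at this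
    push_cast at this
    linear_combination this
  have eY72 : W 7 1 * (304816 / 13326665) + W 7 3 * (75440 / 6240201) + W 7 5 * (108208 / 7252553) = 0 := by
    have := hY 7 2
    simp only [Fin.sum_univ_eight, x0, P0, Q0, Matrix.cons_val, w24, w25, w26, w27, w30, w31, w32, w33, w42, w43, w46, w47, w50, w51, w54, w55, w61, w63, w65, w67, w70, w72, w74, w76, w77, zero_mul] at this
    push_cast at this
    linear_combination this
  have w71 : W 7 1 = 0 := by
    linear_combination (3007725 / 3872 : ℝ) * eY70 + (10425095 / 13552 : ℝ) * eY71 + (-635245 / 10164 : ℝ) * eY72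
  have w73 : W 7 3 = 0 := by
    linear_combination (-6312 / 11 : ℝ) * eY70 + (-732981 / 1232 : ℝ) * eY71 + (200143 / 2464 : ℝ) * eY72
  have w75 : W 7 5 = 0 := by
    linear_combination (-2810605 / 3872 : ℝ) * eY70 + (-84364 / 121 : ℝ) * eY71 + (1126993 / 11616 : ℝ) * eY72
  have w21 : W 2 1 = 0 := by
    linear_combination (29851799359 / 139885824 : ℝ) * eY20 + (156021901 / 728572 : ℝ) * eY21 + (160714289 / 3278574 : ℝ) * eY22 + (-164799130560775 / 68322379008 : ℝ) * eY30 + (-842703674375 / 355845724 : ℝ) * eY31 + (-3404522844475 / 6405223032 : ℝ) * eY32 + (-65740275 / 182143 : ℝ) * eY40 + (-3771543925 / 10760448 : ℝ) * eY41 + (-3523191775 / 34971456 : ℝ) * eY42 + (202248881850 / 88961431 : ℝ) * eY50 + (4280934665825 / 1666399488 : ℝ) * eY51 + (2865192492875 / 5693531584 : ℝ) * eY52 + (-28820525 / 273312 : ℝ) * eJ10 + (28820525 / 273312 : ℝ) * eJ11 + (28820525 / 1639872 : ℝ) * eJ12 + (-396566435 / 2954016 : ℝ) * eJ30 + (396566435 / 2954016 : ℝ) * eJ31 + (-396566435 / 1363392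 : ℝ) * eJ32 + (-571324525 / 3433248 : ℝ) * eJ50 + (571324525 / 3433248 : ℝ) * eJ51 + (571324525 / 1584576 : ℝ) * eJ52 + (-33708146975 / 5739552 : ℝ) * eJ70 + (33708146975 / 5739552 : ℝ) * eJ71 + (-33708146975 / 34437312 : ℝ) * eJ72 - (115282100 / 202652307 : ℝ) * w71 - (-1586265740 / 168485427 : ℝ) * w73 - (2285298100 / 195818931 : ℝ) * w75
  have w20 : W 2 0 = 0 := by
    linear_combination (-94470199 / 448352 : ℝ) * eY20 + (-62641897 / 448352 : ℝ) * eY21 + (-480899 / 168132 : ℝ) * eY22 - (7 / 6 : ℝ) * w21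
  have w22 : W 2 2 = 0 := by
    linear_combination (35472311 / 2241760 : ℝ) * eY20 + (-57726067 / 2241760 : ℝ) * eY21 + (25192741 / 840660 : ℝ) * eY22 - (-6419 / 10110 : ℝ) * w21
  have w23 : W 2 3 = 0 := by
    linear_combination (-60233049 / 560440 : ℝ) * eY20 + (-7555464 / 70055 : ℝ) * eY21 + (-1729488 / 70055 : ℝ) * eY22 - (789 / 1685 : ℝ) * w21
  have w01 : W 0 1 = 0 := by
    linear_combination (-157752651 / 4728064 : ℝ) * eJ10 + (50009607 / 2364032 : ℝ) * eJ11 + (-23281695 / 591008 : ℝ) * eJ12 - (27952965 / 32294944 : ℝ) * w21 - (-128122200 / 146071321 : ℝ) * w71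
  have w11 : W 1 1 = 0 := by
    linear_combination (-1938797 / 64768 : ℝ) * eJ10 + (1364833 / 32384 : ℝ) * eJ11 + (-1344811 / 24288 : ℝ) * eJ12 - (36636923 / 32294944 : ℝ) * w21 - (-7144517 / 6002931 : ℝ) * w71
  have w41 : W 4 1 = 0 := by
    linear_combination (3989 / 73 : ℝ) * eJ10 + (-3989 / 73 : ℝ) * eJ11 + (-3989 / 438 : ℝ) * eJ12 - (-1 : ℝ) * w21 - (-510592 / 1732071 : ℝ) * w71
  have w03 : W 0 3 = 0 := by
    linear_combination (-608379 / 323840 : ℝ) * eJ30 + (-1672983 / 161920 : ℝ) * eJ31 + (-432999 / 40480 : ℝ) * eJ32 - (54965277 / 161474720 : ℝ) * w23 - (517608 / 10004885 : ℝ) * w73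
  have w13 : W 1 3 = 0 := by
    linear_combination (64027019 / 5505280 : ℝ) * eJ30 + (1598423 / 2752640 : ℝ) * eJ31 + (-36103003 / 2064480 : ℝ) * eJ32 - (1211127443 / 2745070240 : ℝ) * w23 - (18363511 / 510249135 : ℝ) * w73
  have w53 : W 5 3 = 0 := by
    linear_combination (-533 / 85 : ℝ) * eJ30 + (533 / 85 : ℝ) * eJ31 + (-6929 / 510 : ℝ) * eJ32 - (31447 / 339065 : ℝ) * w23 - (-886912 / 2016795 : ℝ) * w73
  have w40 : W 4 0 = 0 := by
    linear_combination (-187925691 / 1569232 : ℝ) * eY40 + (-283410597 / 1569232 : ℝ) * eY41 + (480899 / 196154 : ℝ) * eY42 - (6 / 7 : ℝ) * w41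
  have w44 : W 4 4 = 0 := by
    linear_combination (-406231641 / 7846160 : ℝ) * eY40 + (-179728677 / 7846160 : ℝ) * eY41 + (23086929 / 980770 : ℝ) * eY42 - (-4734 / 11795 : ℝ) * w41
  have w45 : W 4 5 = 0 := by
    linear_combination (-7130592 / 70055 : ℝ) * eY40 + (-55396887 / 560440 : ℝ) * eY41 + (-3980697 / 140110 : ℝ) * eY42 - (917 / 1685 : ℝ) * w41
  have w52 : W 5 2 = 0 := by
    linear_combination (-462561 / 205424 : ℝ) * eY50 + (4077375 / 205424 : ℝ) * eY51 + (-47291 / 25678 : ℝ) * eY52 - (262 / 263 : ℝ) * w53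
  have w56 : W 5 6 = 0 := by
    linear_combination (-594207 / 205424 : ℝ) * eY50 + (-709389 / 205424 : ℝ) * eY51 + (18051 / 25678 : ℝ) * eY52 - (-6 / 263 : ℝ) * w53
  have w57 : W 5 7 = 0 := by
    linear_combination (-36288 / 12839 : ℝ) * eY50 + (-328041 / 102712 : ℝ) * eY51 + (-16065 / 25678 : ℝ) * eY52 - (7 / 263 : ℝ) * w53
  have w00 : W 0 0 = 0 := by
    linear_combination (5950359 / 32384 : ℝ) * eJ00 + (-12691587 / 64768 : ℝ) * eJ01 + (24885 / 2024 : ℝ) * eJ02 - (-48045825 / 16147472 : ℝ) * w20 - (124044615 / 32294944 : ℝ) * w40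
  have w10 : W 1 0 = 0 := by
    linear_combination (4254675 / 16192 : ℝ) * eJ00 + (-16227831 / 64768 : ℝ) * eJ01 + (1204657 / 64768 : ℝ) * eJ02 - (-521549741 / 129179776 : ℝ) * w20 - (668097433 / 129179776 : ℝ) * w40
  have w60 : W 6 0 = 0 := by
    linear_combination (23727 / 128 : ℝ) * eJ00 + (-23727 / 128 : ℝ) * eJ01 + (-7909 / 256 : ℝ) * eJ02 - (-1732071 / 510592 : ℝ) * w20 - (1732071 / 510592 : ℝ) * w40
  have w02 : W 0 2 = 0 := by
    linear_combination (-432999 / 420992 : ℝ) * eJ20 + (-9415299 / 841984 : ℝ) * eJ21 + (24885 / 2024 : ℝ) * eJ22 - (75493269 / 209917136 : ℝ) * w22 - (-20960991 / 56097184 : ℝ) * w52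
  have w12 : W 1 2 = 0 := by
    linear_combination (1391529 / 105248 : ℝ) * eJ20 + (-850935 / 841984 : ℝ) * eJ21 + (1204657 / 64768 : ℝ) * eJ22 - (783844615 / 1679337088 : ℝ) * w22 - (-139389827 / 224388736 : ℝ) * w52
  have w62 : W 6 2 = 0 := by
    linear_combination (23727 / 1664 : ℝ) * eJ20 + (-23727 / 1664 : ℝ) * eJ21 + (-7909 / 256 : ℝ) * eJ22 - (-2016795 / 6637696 : ℝ) * w22 - (-1399893 / 886912 : ℝ) * w52
  have w05 : W 0 5 = 0 := by
    linear_combination (-2711991 / 347392 : ℝ) * eJ50 + (-8414685 / 1910656 : ℝ) * eJ51 + (-18732717 / 955328 : ℝ) * eJ52 - (822299229 / 1905401696 : ℝ) * w45 - (-27947988 / 118057643 : ℝ) * w75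
  have w15 : W 1 5 = 0 := by
    linear_combination (1598423 / 347392 : ℝ) * eJ50 + (14539309 / 1910656 : ℝ) * eJ51 + (-88153529 / 2865984 : ℝ) * eJ52 - (1117210915 / 1905401696 : ℝ) * w45 - (-139389827 / 354172929 : ℝ) * w75
  have w35 : W 3 5 = 0 := by
    linear_combination (533 / 59 : ℝ) * eJ50 + (-533 / 59 : ℝ) * eJ51 + (-6929 / 354 : ℝ) * eJ52 - (45305 / 235351 : ℝ) * w45 - (-886912 / 1399893 : ℝ) * w75
  have w07 : W 0 7 = 0 := by
    linear_combination (-44726403 / 4728064 : ℝ) * eJ70 + (-6503517 / 2364032 : ℝ) * eJ71 + (269469 / 1182016 : ℝ) * eJ72 - (3888459 / 4315168 : ℝ) * w57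
  have w17 : W 1 7 = 0 := by
    linear_combination (10715107 / 4728064 : ℝ) * eJ70 + (23509165 / 2364032 : ℝ) * eJ71 + (-9714007 / 3546048 : ℝ) * eJ72 - (4741877 / 4315168 : ℝ) * w57
  have w37 : W 3 7 = 0 := by
    linear_combination (533 / 73 : ℝ) * eJ70 + (-533 / 73 : ℝ) * eJ71 + (533 / 438 : ℝ) * eJ72 - (-1 : ℝ) * w57
  have w34 : W 3 4 = 0 := by
    linear_combination (149121 / 12928 : ℝ) * eY30 + (-33927 / 3232 : ℝ) * eY31 - (1582471 / 1481872 : ℝ) * w35 - (94943 / 33936 : ℝ) * w37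
  have w36 : W 3 6 = 0 := by
    linear_combination (-81963 / 12928 : ℝ) * eY30 + (-17241 / 3232 : ℝ) * eY31 - (-1427 / 211696 : ℝ) * w35 - (4229 / 4848 : ℝ) * w37
  have w64 : W 6 4 = 0 := by
    linear_combination (-447363 / 89392 : ℝ) * eY60 + (7134927 / 178784 : ℝ) * eY61 - (183048 / 9414095 : ℝ) * w60 - (-603585 / 731897 : ℝ) * w62
  have w66 : W 6 6 = 0 := by
    linear_combination (-549171 / 89392 : ℝ) * eY60 + (-1060815 / 178784 : ℝ) * eY61 - (-180663 / 9414095 : ℝ) * w60 - (-9048 / 731897 : ℝ) * w62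
  have w04 : W 0 4 = 0 := by
    linear_combination (-6428151 / 420992 : ℝ) * eJ40 + (2575005 / 841984 : ℝ) * eJ41 - (-22082949 / 28048592 : ℝ) * w34 - (112253391 / 419834272 : ℝ) * w44 - (796320 / 2000977 : ℝ) * w64
  have w14 : W 1 4 = 0 := by
    linear_combination (-3153465 / 420992 : ℝ) * eJ40 + (16588227 / 841984 : ℝ) * eJ41 - (-36103003 / 28048592 : ℝ) * w34 - (135111793 / 419834272 : ℝ) * w44 - (1204657 / 2000977 : ℝ) * w64
  have w06 : W 0 6 = 0 := by
    linear_combination (-44793 / 32384 : ℝ) * eJ60 + (-63753 / 5888 : ℝ) * eJ61 - (2348433 / 2157584 : ℝ) * w36 - (-808407 / 4315168 : ℝ) * w56 - (796320 / 2000977 : ℝ) * w66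
  have w16 : W 1 6 = 0 := by
    linear_combination (-210231 / 32384 : ℝ) * eJ60 + (110121 / 5888 : ℝ) * eJ61 - (-2486065 / 2157584 : ℝ) * w36 - (236927 / 105248 : ℝ) * w56 - (1204657 / 2000977 : ℝ) * w66
  funext y k
  fin_cases y <;> fin_cases k <;> assumption

lemma exists_point : ∃ x ∈ U, (∀ y k, adj' y k = true → g x y k = 0) ∧
    AlgebraicIndependent ℚ (Sum.elim x.2.2.1 x.2.2.2.1) := by
  have hm := open_of_nostress adj' x0 x0_nostress
  have hN : G adj' '' U ∈ 𝓝 (G adj' x0) := by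
    rw [← hm]
    exact image_mem_map (isOpen_U.mem_nhds x0_mem)
  have hc : Continuous fun r : Fin 8 ⊕ Fin 8 → ℝ =>
      ((0, fun y => r (Sum.inl y), fun k => r (Sum.inr k)) : TS) := by fun_prop
  have ht := hc.continuousAt (x := Sum.elim x0.2.2.1 x0.2.2.2.1)
  have e : ((0, fun y => Sum.elim x0.2.2.1 x0.2.2.2.1 (Sum.inl y),
      fun k => Sum.elim x0.2.2.1 x0.2.2.2.1 (Sum.inr k)) : TS) = G adj' x0 := by
    refine Prod.ext ?_ rfl
    funext y k
    by_cases h : adj' y k = true
    · simp [G, h, x0_contact y k h]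
    · simp [G, h, x0]
  rw [ContinuousAt, e] at ht
  obtain ⟨r, ⟨x, hx, he⟩, hr⟩ := exists_generic _ _ (ht hN)
  refine ⟨x, hx, fun y k h => ?_, ?_⟩
  · have := congrFun (congrFun (congrArg Prod.fst he) y) k
    simpa [G, h] using this
  · have e1 : x.2.2.1 = fun y => r (Sum.inl y) := congrArg (fun t : TS => t.2.1) he
    have e2 : x.2.2.2.1 = fun y => r (Sum.inr y) := congrArg (fun t : TS => t.2.2) he
    have : Sum.elim x.2.2.1 x.2.2.2.1 = r := by
      funext i
      cases i <;> simp [e1, e2]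
    rwa [this]

end Pool.Agent.H.MP_ff42d4_co
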